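import Pool.Agent.K7.H15.Irr.Graph

/-!
# The main theorem
-/

set_option autoImplicit false

namespace Pool.Agent.K7.H15.Irr

open Finset

universe u v

/-! ### The degrees of the vertices in the class of `l` -/

theorem two_T (k : ℕ) : 2 * ∑ i ∈ range k, (i + 1) = k * (k + 1) := by
  induction k with
  | zero => simp
  | succ k ih =>
    rw [Finset.sum_range_succ, Nat.mul_add, ih]
    ring

/-- the degree of the vertex `a` in the class of `l` -/
def lv (h n a : ℕ) : ℕ := ∑ i ∈ (range n).filter (LC h n a), (i + 1)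

theorem lv_zero (h n : ℕ) : 2 * lv h n 0 = n * (n + 1) := by
  unfold lv
  rw [Finset.filter_true_of_mem, two_T]
  intro i _
  exact Or.inl rfl

theorem lv_one (h n : ℕ) (hn : n = 2 * h) (hh : 0 < h) : 2 * lv h n 1 = h * (h + 1) + 2 * n := by
  unfold lv
  have h1 : (range n).filter (LC h n 1) = insert (n - 1) (range h) := by
    ext i
    rw [mem_filter, mem_range, mem_insert, mem_range]
    unfold LC
    omega
  have h2 : n - 1 + 1 = n := by omega
  rw [h1, Finset.sum_insert, Nat.mul_add, two_T, h2]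
  · ring
  · rw [mem_range]
    omega

theorem lv_two (h n : ℕ) (hn : n = 2 * h) : 2 * lv h n 2 + h * (h + 1) = n * (n + 1) := by
  unfold lv
  have h1 : (range n).filter (LC h n 2) = (range n).filter (fun i => ¬ i < h) := by
    ext i
    rw [mem_filter, mem_filter, mem_range]
    unfold LC
    omega
  have h2 : (range n).filter (fun i => i < h) = range h := by
    ext i
    rw [mem_filter, mem_range, mem_range]
    omega
  have h3 := Finset.sum_filter_add_sum_filter_not (range n) (fun i => i < h) (fun i => i + 1)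
  have h4 := two_T n
  have h5 := two_T h
  rw [← h3, h2] at h4
  rw [h1]
  linarith

theorem lv_inj (h n : ℕ) (hn : n = 2 * h) (hh : 3 ≤ h) {a b : ℕ} (ha : a < 3) (hb : b < 3)
    (hab : a ≠ b) : lv h n a ≠ lv h n b := by
  have h0 := lv_zero h n
  have h1 := lv_one h n hn (by omega)
  have h2 := lv_two h n hn
  have h4 : 3 * h ≤ h * h := Nat.mul_le_mul_right _ hh
  have e0 : 2 * lv h n 0 = 4 * (h * h) + 2 * h := by rw [h0, hn]; ring
  have e1 : 2 * lv h n 1 = h * h + 5 * h := by rw [h1, hn]; ring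
  have e2 : 2 * lv h n 2 = 3 * (h * h) + h := by
    have : n * (n + 1) = 4 * (h * h) + 2 * h := by rw [hn]; ring
    rw [this] at h2
    linarith
  intro e
  generalize h * h = z at *
  interval_cases a <;> interval_cases b <;> omega

theorem lt_lv (h n q : ℕ) (hn : n = 2 * h) (hq : 200 * (q + 1) ≤ h) {a : ℕ} (ha : a < 3) :
    n * (q + 3) + q < lv h n a := by
  have h0 := lv_zero h n
  have h1 := lv_one h n hn (by omega)
  have h2 := lv_two h n hn
  have e0 : 2 * lv h n 0 = 4 * (h * h) + 2 * h := by rw [h0, hn]; ring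
  have e1 : 2 * lv h n 1 = h * h + 5 * h := by rw [h1, hn]; ring
  have e2 : 2 * lv h n 2 = 3 * (h * h) + h := by
    have : n * (n + 1) = 4 * (h * h) + 2 * h := by rw [hn]; ring
    rw [this] at h2
    linarith
  have h4 : 200 * (q + 1) * h ≤ h * h := Nat.mul_le_mul_right _ hq
  have h5 : q ≤ q * h := Nat.le_mul_of_pos_right _ (by omega)
  have h6 : 200 * (q + 1) * h = 200 * (q * h) + 200 * h := by ring
  have h7 : n * (q + 3) = 2 * (q * h) + 6 * h := by rw [hn]; ring
  rw [h6] at h4
  rw [h7]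
  generalize h * h = z at *
  generalize q * h = w at *
  interval_cases a <;> omega

/-! ### All the degrees -/

/-- the number of the base configurations whose section goes through the vertex `b` of the class
of `x` -/
def deg {X : Type v} [DecidableEq X] (P : Par X) (x : X) (b : ℕ) : ℕ :=
  ((base P.h P.n).filter (fun ω => lab P x ω = b)).card

/-- further conditions on the parameters -/
structure Better {X : Type v} (P : Par X) : Prop where
  size : ∀ x, x ≠ P.l → P.n = P.m x * 4 ^ P.t x
  large : ∀ x, x ≠ P.l → 200 * 4 ^ P.t x ≤ P.h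
  inj : ∀ x y, x ≠ P.l → y ≠ P.l → x ≠ y → P.t x = P.t y →
    (x = P.c ∧ y = P.r) ∨ (x = P.r ∧ y = P.c)
  tc : P.t P.c = 0
  tr : P.t P.r = 0
  hh : 3 ≤ P.h

theorem deg_l {X : Type v} [DecidableEq X] (P : Par X) {b : ℕ} (hb : b < 3) :
    deg P P.l b = lv P.h P.n b := by
  unfold deg lv
  simp only [lab_l]
  exact card_l P.h P.n b hb

/-- the weights for the class of `x` -/
def wt {X : Type v} (P : Par X) (x : X) : ℕ → ℕ := if P.τ x then wR else wC P.n

theorem wt_ok {X : Type v} (P : Par X) (hn : 1 ≤ P.n) (x : X) : WeightOK P.n (wt P x) := by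
  unfold wt
  split_ifs
  · exact wR_ok _ hn
  · exact wC_ok _ hn

theorem deg_ne {X : Type v} [DecidableEq X] {F : OrientedGraph X} {P : Par X} (hP : Good F P)
    {x : X} (hx : x ≠ P.l) {k : ℕ} (hk : P.n = P.m x * k) {b : ℕ} (hb : b < P.m x) :
    deg P x b = rs (wt P x) (P.m x) k b := by
  unfold deg wt lab
  rw [← sum_mod _ _ _ _ hb]
  simp only [if_neg hx]
  rw [← hk]
  cases hτ : P.τ x
  · simp only [Bool.false_eq_true, if_false]
    exact card_C P.h P.n hP.nh (fun i => i % P.m x = b)
  · simp only [if_true]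
    exact card_R P.h P.n hP.nh (fun i => i % P.m x = b)

theorem exists_pred (k : ℕ) : ∃ q, 4 ^ k = q + 1 :=
  ⟨4 ^ k - 1, by have : 0 < 4 ^ k := Nat.pow_pos (by norm_num); omega⟩

theorem deg_lt_l {X : Type v} [DecidableEq X] {F : OrientedGraph X} {P : Par X} (hP : Good F P)
    (hB : Better P) {x : X} (hx : x ≠ P.l) {b a : ℕ} (hb : b < P.m x) (ha : a < 3) :
    deg P x b < deg P P.l a := by
  obtain ⟨q, hq⟩ := exists_pred (P.t x)
  have h1 := hB.size x hx
  have h2 := hB.large x hx
  rw [hq] at h1 h2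
  rw [deg_l P ha, deg_ne hP hx h1 hb]
  have hn : 1 ≤ P.n := by
    have := hB.hh
    have := hP.nh
    omega
  exact lt_of_le_of_lt (rs_up (wt_ok P hn x) h1 hb) (lt_lv P.h P.n q hP.nh h2 ha)

theorem deg_level {X : Type v} [DecidableEq X] {F : OrientedGraph X} {P : Par X} (hP : Good F P)
    (hB : Better P) {x y : X} (hx : x ≠ P.l) (hy : y ≠ P.l) {b a : ℕ} (hb : b < P.m x)
    (ha : a < P.m y) (hxy : P.t x < P.t y) : deg P x b < deg P y a := by
  obtain ⟨q, hq⟩ := exists_pred (P.t x)
  obtain ⟨q', hq'⟩ := exists_pred (P.t y)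
  have h1 := hB.size x hx
  have h2 := hB.size y hy
  rw [hq] at h1
  rw [hq'] at h2
  have hn : 1 ≤ P.n := by
    have := hB.hh
    have := hP.nh
    omega
  rw [deg_ne hP hx h1 hb, deg_ne hP hy h2 ha]
  refine rs_ne (wt_ok P hn x) (wt_ok P hn y) h1 h2 hb ?_
  rw [← hq, ← hq', ← pow_succ']
  exact Nat.pow_le_pow_right (by norm_num) hxy

theorem deg_c {X : Type v} [DecidableEq X] {F : OrientedGraph X} {P : Par X} (hP : Good F P)
    {b : ℕ} (hb : b < P.n) : deg P P.c b = wC P.n b := by
  have h1 : P.n = P.m P.c * 1 := by rw [hP.mc, Nat.mul_one]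
  rw [deg_ne hP (F.underlying.ne_of_adj hP.lc).symm h1 (by rw [hP.mc]; exact hb)]
  simp [rs, wt, hP.τc]

theorem deg_r {X : Type v} [DecidableEq X] {F : OrientedGraph X} {P : Par X} (hP : Good F P)
    {b : ℕ} (hb : b < P.n) : deg P P.r b = wR b := by
  have h1 : P.n = P.m P.r * 1 := by rw [hP.mr, Nat.mul_one]
  rw [deg_ne hP hP.lr.symm h1 (by rw [hP.mr]; exact hb)]
  simp [rs, wt, hP.τr]

theorem deg_c_ne_r {X : Type v} [DecidableEq X] {F : OrientedGraph X} {P : Par X} (hP : Good F P)
    {a b : ℕ} (ha : a < P.n) (hb : b < P.n) : deg P P.c a ≠ deg P P.r b := by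
  rw [deg_c hP ha, deg_r hP hb, wC, wR]
  have := hP.nh
  split_ifs <;> omega

theorem deg_inj {X : Type v} [DecidableEq X] {F : OrientedGraph X} {P : Par X} (hP : Good F P)
    (hB : Better P) {x y : X} {a b : ℕ} (ha : a < size P x) (hb : b < size P y)
    (hd : deg P x a = deg P y b) : x = y ∧ a = b := by
  unfold size at ha hb
  have hn : 1 ≤ P.n := by
    have := hB.hh
    have := hP.nh
    omega
  by_cases hx : x = P.l
  · by_cases hy : y = P.l
    · rw [if_pos hx] at ha
      rw [if_pos hy] at hb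
      refine ⟨hx.trans hy.symm, ?_⟩
      by_contra hab
      rw [hx, hy, deg_l P ha, deg_l P hb] at hd
      exact lv_inj P.h P.n hP.nh hB.hh ha hb hab hd
    · rw [if_pos hx] at ha
      rw [if_neg hy] at hb
      rw [hx] at hd
      exact absurd hd (deg_lt_l hP hB hy hb ha).ne'
  · by_cases hy : y = P.l
    · rw [if_neg hx] at ha
      rw [if_pos hy] at hb
      rw [hy] at hd
      exact absurd hd (deg_lt_l hP hB hx ha hb).ne
    · rw [if_neg hx] at ha
      rw [if_neg hy] at hb
      rcases lt_trichotomy (P.t x) (P.t y) with hlt | heq | hgt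
      · exact absurd hd (deg_level hP hB hx hy ha hb hlt).ne
      · by_cases hxy : x = y
        · refine ⟨hxy, ?_⟩
          subst hxy
          have h1 := hB.size x hx
          rw [deg_ne hP hx h1 ha, deg_ne hP hx h1 hb] at hd
          have h2 : 0 < 4 ^ P.t x := Nat.pow_pos (by norm_num)
          rcases lt_trichotomy a b with h | h | h
          · exact absurd hd (rs_lt (wt_ok P hn x) h1 h2 h hb).ne
          · exact h
          · exact absurd hd (rs_lt (wt_ok P hn x) h1 h2 h ha).ne'
        · exfalso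
          rcases hB.inj x y hx hy hxy heq with ⟨h1, h2⟩ | ⟨h1, h2⟩
          · rw [h1, hP.mc] at ha
            rw [h2, hP.mr] at hb
            rw [h1, h2] at hd
            exact deg_c_ne_r hP ha hb hd
          · rw [h1, hP.mr] at ha
            rw [h2, hP.mc] at hb
            rw [h1, h2] at hd
            exact deg_c_ne_r hP hb ha hd.symm
      · exact absurd hd (deg_level hP hB hy hx hb ha hgt).ne'

theorem irregular_graph {X : Type v} [DecidableEq X] [Finite X] {V : Type u} {F : OrientedGraph X}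
    (hF : F.IsCore) {P : Par X} (hP : Good F P) (hB : Better P)
    (e : V ≃ {p : X × ℕ // p.2 < size P p.1}) :
    Irregular F (graph F P (fun w => (e w).1.1) (fun w => (e w).1.2)) := by
  intro v w hvw hd
  rw [fdeg_graph hF hP e v, fdeg_graph hF hP e w] at hd
  obtain ⟨h1, h2⟩ := deg_inj hP hB (e v).2 (e w).2 hd
  exact hvw (e.injective (Subtype.ext (Prod.ext h1 h2)))

/-- **Theorem.** For every weakly connected oriented graph `F` on at least three vertices that is a
core there are `F`-irregular oriented graphs on arbitrarily many vertices. -/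
theorem main {X : Type u} [Fintype X] (F : OrientedGraph X) (hF : F.WeaklyConnected)
    (h3 : 3 ≤ Fintype.card X) (hcore : F.IsCore) :
    {n : ℕ | ∃ G : OrientedGraph (Fin n), Irregular F G}.Infinite := by
  classical
  rw [Set.infinite_iff_exists_gt]
  intro M
  obtain ⟨l, c, r, hlc, hcr, hlr, t, par, τ, hO⟩ := exists_ord F.underlying hF h3
  have hY : ∀ x, x ∈ Finset.univ.erase l ↔ x ≠ l := by
    intro x
    simp
  have hcl : c ≠ l := (F.underlying.ne_of_adj hlc).symm
  have ht : ∀ x, x ≠ l → t x + 1 < Fintype.card X := by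
    intro x hx
    have := hO.lt x ((hY x).2 hx)
    rw [Finset.card_erase_of_mem (Finset.mem_univ l), Finset.card_univ] at this
    omega
  obtain ⟨K, hK⟩ : ∃ K, Fintype.card X = K + 1 := ⟨Fintype.card X - 1, by omega⟩
  let P : Par X := ⟨l, c, r, t, par, τ, fun x => (M + 100) * 4 ^ (K + 1 - t x),
    (M + 100) * (2 * 4 ^ K), (M + 100) * 4 ^ (K + 1)⟩
  have hn : P.n = 2 * P.h := by
    show (M + 100) * 4 ^ (K + 1) = 2 * ((M + 100) * (2 * 4 ^ K))
    ring
  have hP : Good F P := by
    refine ⟨hlc, hcr, hlr, hn, ?_, ?_, hO.τc, hO.τr, ?_, ?_⟩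
    · show (M + 100) * 4 ^ (K + 1 - t c) = (M + 100) * 4 ^ (K + 1)
      rw [hO.tc]
      rfl
    · show (M + 100) * 4 ^ (K + 1 - t r) = (M + 100) * 4 ^ (K + 1)
      rw [hO.tr]
      rfl
    · intro x h1 h2 h3
      obtain ⟨k1, k2, k3, k4, k5⟩ := hO.par x ((hY x).2 h1) h2 h3
      refine ⟨(hY _).1 k2, k3, k4, k5, ?_⟩
      show (M + 100) * 4 ^ (K + 1 - t x) ∣ (M + 100) * 4 ^ (K + 1 - t (par x))
      exact Nat.mul_dvd_mul_left _ (pow_dvd_pow _ (by omega))
    · intro x _
      exact Nat.mul_pos (by omega) (Nat.pow_pos (by norm_num))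
  have h4K : 0 < 4 ^ K := Nat.pow_pos (by norm_num)
  have hB : Better P := by
    refine ⟨?_, ?_, ?_, hO.tc, hO.tr, ?_⟩
    · intro x hx
      show (M + 100) * 4 ^ (K + 1) = (M + 100) * 4 ^ (K + 1 - t x) * 4 ^ t x
      rw [Nat.mul_assoc, ← pow_add]
      have := ht x hx
      congr 2
      omega
    · intro x hx
      show 200 * 4 ^ t x ≤ (M + 100) * (2 * 4 ^ K)
      have h1 : 4 ^ t x ≤ 4 ^ K := Nat.pow_le_pow_right (by norm_num) (by have := ht x hx; omega)
      calc 200 * 4 ^ t x ≤ 200 * 4 ^ K := Nat.mul_le_mul_left _ h1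
        _ = 100 * (2 * 4 ^ K) := by ring
        _ ≤ (M + 100) * (2 * 4 ^ K) := Nat.mul_le_mul_right _ (by omega)
    · intro x y hx hy hxy hxy'
      exact hO.inj x ((hY x).2 hx) y ((hY y).2 hy) hxy hxy'
    · show 3 ≤ (M + 100) * (2 * 4 ^ K)
      calc 3 ≤ 100 * (2 * 1) := by norm_num
        _ ≤ (M + 100) * (2 * 4 ^ K) := Nat.mul_le_mul (by omega) (Nat.mul_le_mul_left _ h4K)
  have hfin : Finite {p : X × ℕ // p.2 < size P p.1} := by
    have hs : ∀ x, size P x ≤ P.n := by
      intro x
      unfold size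
      split_ifs with h1
      · have := hB.hh
        omega
      · rw [hB.size x h1]
        exact Nat.le_mul_of_pos_right _ (Nat.pow_pos (by norm_num))
    let f : {p : X × ℕ // p.2 < size P p.1} → X × Fin P.n :=
      fun p => (p.1.1, ⟨p.1.2, lt_of_lt_of_le p.2 (hs _)⟩)
    refine Finite.of_injective f ?_
    intro p q hpq
    have h1 : (f p).1 = (f q).1 := congrArg Prod.fst hpq
    have h2 : ((f p).2 : ℕ) = ((f q).2 : ℕ) := congrArg (fun z : X × Fin P.n => (z.2 : ℕ)) hpq
    exact Subtype.ext (Prod.ext h1 h2)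
  have := Fintype.ofFinite {p : X × ℕ // p.2 < size P p.1}
  refine ⟨Fintype.card {p : X × ℕ // p.2 < size P p.1}, ?_, ?_⟩
  · exact ⟨_, irregular_graph hcore hP hB (Fintype.equivFin _).symm⟩
  · have hinj : Function.Injective (fun i : Fin P.n => (⟨(c, (i : ℕ)), by
        show (i : ℕ) < size P c
        unfold size
        rw [if_neg (show c ≠ P.l from hcl)]
        show (i : ℕ) < P.m P.c
        rw [hP.mc]
        exact i.2⟩ : {p : X × ℕ // p.2 < size P p.1})) := by
      intro i j hij
      have := congrArg (fun z => z.1.2) hij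
      exact Fin.ext this
    have h5 := Fintype.card_le_of_injective _ hinj
    rw [Fintype.card_fin] at h5
    refine lt_of_lt_of_le ?_ h5
    show M < (M + 100) * 4 ^ (K + 1)
    calc M < (M + 100) * 1 := by omega
      _ ≤ (M + 100) * 4 ^ (K + 1) := Nat.mul_le_mul_left _ (Nat.pow_pos (by norm_num))

end Pool.Agent.K7.H15.Irr
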