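import Mathlib

/-!
# Counting the base configurations
-/

set_option autoImplicit false

namespace Pool.Agent.K7.H15.Irr

open Finset

/-- the pattern between the class of `l` (3 vertices) and the class of `c` (`n` vertices) -/
def LC (h n a i : ℕ) : Prop := a = 0 ∨ (a = 1 ∧ (i < h ∨ i + 1 = n)) ∨ (a = 2 ∧ h ≤ i)

instance (h n a i : ℕ) : Decidable (LC h n a i) := by unfold LC; infer_instance

/-- the base configurations -/
def base (h n : ℕ) : Finset (ℕ × ℕ × ℕ) :=
  ((range 3) ×ˢ (range n) ×ˢ (range n)).filter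
    (fun ω => LC h n ω.1 ω.2.1 ∧ n ≤ ω.2.1 + ω.2.2 + 1)

theorem card_base_filter (h n : ℕ) (P : ℕ × ℕ × ℕ → Prop) [DecidablePred P] :
    ((base h n).filter P).card = ∑ a ∈ range 3, ∑ i ∈ range n, ∑ j ∈ range n,
      if LC h n a i ∧ n ≤ i + j + 1 ∧ P (a, i, j) then 1 else 0 := by
  unfold base
  rw [Finset.filter_filter, Finset.card_filter, Finset.sum_product]
  refine Finset.sum_congr rfl fun a _ => ?_
  rw [Finset.sum_product]
  refine Finset.sum_congr rfl fun i _ => Finset.sum_congr rfl fun j _ => ?_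
  simp only [and_assoc]

theorem sum_j (n i : ℕ) (hi : i < n) :
    ∑ j ∈ range n, (if n ≤ i + j + 1 then 1 else 0) = i + 1 := by
  rw [← Finset.card_filter]
  have : (range n).filter (fun j => n ≤ i + j + 1) = Finset.Ico (n - 1 - i) n := by
    ext j
    simp only [mem_filter, mem_range, mem_Ico]
    omega
  rw [this, Nat.card_Ico]
  omega

theorem sum_a (h n i : ℕ) (hn : n = 2 * h) (hi : i < n) :
    ∑ a ∈ range 3, (if LC h n a i then 1 else 0) = 2 + (if i + 1 = n then 1 else 0) := by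
  simp only [Finset.sum_range_succ, Finset.sum_range_zero, LC]
  by_cases h1 : i < h
  · have h2 : ¬ (i + 1 = n) := by omega
    have h3 : ¬ h ≤ i := by omega
    simp [h1, h3, h2]
  · have h3 : h ≤ i := by omega
    by_cases h2 : i + 1 = n
    · simp [h2, h3]
    · simp [h1, h2, h3]

/-- the weight of a vertex of the class of `c` -/
def wC (n i : ℕ) : ℕ := 2 * (i + 1) + (if i + 1 = n then n else 0)

/-- the weight of a vertex of the class of `r` -/
def wR (j : ℕ) : ℕ := 2 * j + 3

theorem card_C (h n : ℕ) (hn : n = 2 * h) (P : ℕ → Prop) [DecidablePred P] :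
    ((base h n).filter (fun ω => P ω.2.1)).card = ∑ i ∈ (range n).filter P, wC n i := by
  rw [card_base_filter, Finset.sum_comm, Finset.sum_filter]
  refine Finset.sum_congr rfl fun i hi => ?_
  rw [mem_range] at hi
  by_cases hP : P i
  · rw [if_pos hP]
    have : ∀ a j : ℕ, (if LC h n a i ∧ n ≤ i + j + 1 ∧ P i then 1 else 0) =
        (if LC h n a i then 1 else 0) * (if n ≤ i + j + 1 then 1 else 0) := by
      intro a j
      by_cases h1 : LC h n a i <;> by_cases h2 : n ≤ i + j + 1 <;> simp [h1, h2, hP]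
    simp only [this]
    rw [← Finset.sum_mul_sum, sum_a h n i hn hi, sum_j n i hi]
    unfold wC
    split_ifs with h1
    · rw [← h1]; ring
    · ring
  · rw [if_neg hP]
    simp [hP]

theorem sum_w (h n j : ℕ) (hn : n = 2 * h) (hj : j < n) :
    ∑ i ∈ range n, (2 + (if i + 1 = n then 1 else 0)) * (if n ≤ i + j + 1 then 1 else 0) =
      2 * j + 3 := by
  obtain ⟨n', rfl⟩ : ∃ n', n = n' + 1 := ⟨n - 1, by omega⟩
  rw [Finset.sum_range_succ]
  have h1 : ∀ i ∈ range n', (2 + (if i + 1 = n' + 1 then 1 else 0)) *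
      (if n' + 1 ≤ i + j + 1 then 1 else 0) = 2 * (if n' + 1 ≤ i + j + 1 then 1 else 0) := by
    intro i hi
    rw [mem_range] at hi
    rw [if_neg (by omega : ¬ (i + 1 = n' + 1))]
  rw [Finset.sum_congr rfl h1, ← Finset.mul_sum]
  have h2 : ∑ i ∈ range n', (if n' + 1 ≤ i + j + 1 then 1 else 0) = j := by
    rw [← Finset.card_filter]
    have : (range n').filter (fun i => n' + 1 ≤ i + j + 1) = Finset.Ico (n' - j) n' := by
      ext i
      simp only [mem_filter, mem_range, mem_Ico]
      omega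
    rw [this, Nat.card_Ico]
    omega
  rw [h2, if_pos rfl, if_pos (by omega)]

theorem card_R (h n : ℕ) (hn : n = 2 * h) (P : ℕ → Prop) [DecidablePred P] :
    ((base h n).filter (fun ω => P ω.2.2)).card = ∑ j ∈ (range n).filter P, wR j := by
  rw [card_base_filter, Finset.sum_filter]
  have h0 : ∀ a ∈ range 3, ∑ i ∈ range n, ∑ j ∈ range n,
      (if LC h n a i ∧ n ≤ i + j + 1 ∧ P j then 1 else 0) =
      ∑ j ∈ range n, ∑ i ∈ range n, (if LC h n a i ∧ n ≤ i + j + 1 ∧ P j then 1 else 0) :=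
    fun a _ => Finset.sum_comm
  rw [Finset.sum_congr rfl h0, Finset.sum_comm]
  refine Finset.sum_congr rfl fun j hj => ?_
  rw [mem_range] at hj
  by_cases hP : P j
  · rw [if_pos hP]
    have : ∀ a i : ℕ, (if LC h n a i ∧ n ≤ i + j + 1 ∧ P j then 1 else 0) =
        (if LC h n a i then 1 else 0) * (if n ≤ i + j + 1 then 1 else 0) := by
      intro a i
      by_cases h1 : LC h n a i <;> by_cases h2 : n ≤ i + j + 1 <;> simp [h1, h2, hP]
    simp only [this]
    rw [Finset.sum_comm]
    have h1 : ∀ i ∈ range n, ∑ a ∈ range 3,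
        (if LC h n a i then 1 else 0) * (if n ≤ i + j + 1 then 1 else 0) =
        (2 + (if i + 1 = n then 1 else 0)) * (if n ≤ i + j + 1 then 1 else 0) := by
      intro i hi
      rw [mem_range] at hi
      rw [← Finset.sum_mul, sum_a h n i hn hi]
    rw [Finset.sum_congr rfl h1, sum_w h n j hn hj]
    rfl
  · rw [if_neg hP]
    simp [hP]

theorem card_l (h n : ℕ) (a : ℕ) (ha : a < 3) :
    ((base h n).filter (fun ω => ω.1 = a)).card = ∑ i ∈ (range n).filter (LC h n a), (i + 1) := by
  rw [card_base_filter, Finset.sum_eq_single_of_mem a (mem_range.2 ha), Finset.sum_filter]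
  · refine Finset.sum_congr rfl fun i hi => ?_
    rw [mem_range] at hi
    by_cases hP : LC h n a i
    · rw [if_pos hP, ← sum_j n i hi]
      refine Finset.sum_congr rfl fun j _ => ?_
      simp [hP]
    · rw [if_neg hP]
      simp [hP]
  · intro b _ hb
    simp [hb]

/-! ### The sums over residue classes -/

/-- sum of the weights over a residue class -/
def rs (W : ℕ → ℕ) (m ℓ b : ℕ) : ℕ := ∑ t ∈ range ℓ, W (b + t * m)

theorem sum_mod (W : ℕ → ℕ) (m ℓ b : ℕ) (hb : b < m) :
    ∑ i ∈ (range (m * ℓ)).filter (fun i => i % m = b), W i = rs W m ℓ b := by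
  unfold rs
  symm
  refine Finset.sum_nbij' (fun t => b + t * m) (fun i => i / m) ?_ ?_ ?_ ?_ ?_
  · intro t ht
    rw [mem_range] at ht
    rw [mem_filter, mem_range]
    refine ⟨?_, ?_⟩
    · calc b + t * m < m + t * m := by omega
        _ = m * (t + 1) := by ring
        _ ≤ m * ℓ := Nat.mul_le_mul_left _ ht
    · rw [Nat.add_mul_mod_self_right, Nat.mod_eq_of_lt hb]
  · intro i hi
    rw [mem_filter, mem_range] at hi
    rw [mem_range]
    exact Nat.div_lt_of_lt_mul hi.1
  · intro t _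
    show (b + t * m) / m = t
    rw [Nat.add_mul_div_right _ _ (by omega), Nat.div_eq_of_lt hb, Nat.zero_add]
  · intro i hi
    rw [mem_filter, mem_range] at hi
    show b + i / m * m = i
    rw [← hi.2, Nat.mul_comm]
    exact Nat.mod_add_div i m
  · intro t _
    rfl

/-- the properties of the weights -/
structure WeightOK (n : ℕ) (W : ℕ → ℕ) : Prop where
  mono : ∀ i j, i < j → j < n → W i < W j
  low : ∀ i, 2 * (i + 1) ≤ W i
  up : ∀ i, i + 1 < n → W i ≤ 2 * (i + 1) + 1
  top : ∀ i, i < n → W i ≤ 3 * n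

theorem wC_ok (n : ℕ) (hn : 1 ≤ n) : WeightOK n (wC n) := by
  refine ⟨?_, ?_, ?_, ?_⟩
  · intro i j hij hj
    unfold wC
    rw [if_neg (by omega)]
    omega
  · intro i
    unfold wC
    omega
  · intro i hi
    unfold wC
    rw [if_neg (by omega)]
    omega
  · intro i hi
    unfold wC
    split_ifs <;> omega

theorem wR_ok (n : ℕ) (hn : 1 ≤ n) : WeightOK n wR := by
  refine ⟨?_, ?_, ?_, ?_⟩
  · intro i j hij hj
    unfold wR
    omega
  · intro i
    unfold wR
    omega
  · intro i hi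
    unfold wR
    omega
  · intro i hi
    unfold wR
    omega

theorem rs_lt {n : ℕ} {W : ℕ → ℕ} (hW : WeightOK n W) {m ℓ b b' : ℕ} (hn : n = m * ℓ) (hℓ : 0 < ℓ)
    (hbb : b < b') (hb' : b' < m) : rs W m ℓ b < rs W m ℓ b' := by
  unfold rs
  refine Finset.sum_lt_sum_of_nonempty ⟨0, mem_range.2 hℓ⟩ fun t ht => ?_
  rw [mem_range] at ht
  refine hW.mono _ _ (by omega) ?_
  calc b' + t * m < m + t * m := by omega
    _ = m * (t + 1) := by ring
    _ ≤ m * ℓ := Nat.mul_le_mul_left _ ht
    _ = n := hn.symm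

theorem rs_low {n : ℕ} {W : ℕ → ℕ} (hW : WeightOK n W) {m ℓ b : ℕ} (hn : n = m * (ℓ + 1)) :
    n * ℓ + 2 * (ℓ + 1) ≤ rs W m (ℓ + 1) b := by
  have h1 : ∀ k : ℕ, m * k * (k + 1) + 2 * (k + 1) ≤ ∑ t ∈ range (k + 1), W (b + t * m) := by
    intro k
    induction k with
    | zero =>
      have := hW.low b
      simp
      omega
    | succ k ih =>
      rw [Finset.sum_range_succ]
      have h2 := hW.low (b + (k + 1) * m)
      nlinarith [h2, ih]
  have h2 := h1 ℓ
  unfold rs
  rw [hn]
  nlinarith [h2]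

theorem rs_up {n : ℕ} {W : ℕ → ℕ} (hW : WeightOK n W) {m ℓ b : ℕ} (hn : n = m * (ℓ + 1))
    (hb : b < m) : rs W m (ℓ + 1) b ≤ n * (ℓ + 3) + ℓ := by
  have h1 : ∀ k : ℕ, k ≤ ℓ → ∑ t ∈ range k, W (b + t * m) ≤ m * k * (k + 1) + k := by
    intro k
    induction k with
    | zero => intro _; simp
    | succ k ih =>
      intro hk
      rw [Finset.sum_range_succ]
      have h3 : b + k * m + 1 < n := by
        calc b + k * m + 1 < m + k * m + 1 := by omega
          _ = m * (k + 1) + 1 := by ring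
          _ ≤ m * (k + 1) + m := by omega
          _ = m * (k + 2) := by ring
          _ ≤ m * (ℓ + 1) := Nat.mul_le_mul_left _ (by omega)
          _ = n := hn.symm
      have h2 := hW.up (b + k * m) h3
      have h4 := ih (by omega)
      nlinarith [h2, h4]
  unfold rs
  rw [Finset.sum_range_succ]
  have h2 := h1 ℓ le_rfl
  have h3 : b + ℓ * m < n := by
    rw [hn]
    nlinarith
  have h4 := hW.top _ h3
  have h5 : m * ℓ * (ℓ + 1) = n * ℓ := by rw [hn]; ring
  rw [h5] at h2
  nlinarith [h2, h4]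

/-- the sums in different levels are different -/
theorem rs_ne {n : ℕ} {W W' : ℕ → ℕ} (hW : WeightOK n W) (hW' : WeightOK n W') {m m' ℓ ℓ' b b' : ℕ}
    (hn : n = m * (ℓ + 1)) (hn' : n = m' * (ℓ' + 1)) (hb : b < m)
    (hll : 4 * (ℓ + 1) ≤ ℓ' + 1) : rs W m (ℓ + 1) b < rs W' m' (ℓ' + 1) b' := by
  have h1 := rs_up hW hn hb
  have h2 := rs_low hW' (b := b') hn'
  have h3 : n * (ℓ + 3) ≤ n * ℓ' := Nat.mul_le_mul_left _ (by omega)
  omega

end Pool.Agent.K7.H15.Irr
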