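import Mathlib

/-!
# Oriented graphs, the number of copies of `F` through a vertex, irregular graphs
-/

set_option autoImplicit false

namespace Pool.Agent.K7.H15.Irr

universe u v

/-- An oriented graph with vertex set `V`: a set of arcs without opposite arcs (so there are no
loops either). -/
structure OrientedGraph (V : Type u) where
  /-- there is an arc from the first to the second vertex -/
  Arc : V → V → Prop
  asymm : ∀ x y, Arc x y → ¬ Arc y x

/-- The underlying undirected graph. -/
def OrientedGraph.underlying {V : Type u} (G : OrientedGraph V) : SimpleGraph V where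
  Adj x y := G.Arc x y ∨ G.Arc y x
  symm := ⟨fun _ _ h => Or.symm h⟩
  loopless := ⟨fun x h => by
    rcases h with h | h <;> exact G.asymm x x h h⟩

/-- `G` is weakly connected: the underlying undirected graph is connected. -/
def OrientedGraph.WeaklyConnected {V : Type u} (G : OrientedGraph V) : Prop :=
  G.underlying.Connected

/-- A homomorphism of oriented graphs: a map of the vertices that maps arcs to arcs. -/
def IsHom {V : Type u} {W : Type v} (F : OrientedGraph V) (G : OrientedGraph W) (f : V → W) : Prop :=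
  ∀ x y, F.Arc x y → G.Arc (f x) (f y)

/-- `F` is a core: every homomorphism of `F` to itself is injective (and so, for a finite `F`, it is an
automorphism). -/
def OrientedGraph.IsCore {V : Type u} (F : OrientedGraph V) : Prop :=
  ∀ f : V → V, IsHom F F f → Function.Injective f

/-- A subgraph of `G` (not necessarily induced): a set of vertices and a set of arcs of `G` between
them. -/
@[ext] structure Sub {V : Type u} (G : OrientedGraph V) where
  verts : Set V
  arcs : Set (V × V)
  arc : ∀ e ∈ arcs, G.Arc e.1 e.2 ∧ e.1 ∈ verts ∧ e.2 ∈ verts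

/-- The subgraph `H` of `G` is isomorphic to `F`. -/
def Sub.IsoTo {V : Type u} {X : Type v} {G : OrientedGraph V} (H : Sub G) (F : OrientedGraph X) :
    Prop :=
  ∃ e : X ≃ H.verts, ∀ x y, F.Arc x y ↔ ((e x : V), (e y : V)) ∈ H.arcs

/-- The `F`-degree of the vertex `v` of `G`: the number of the subgraphs of `G` that contain `v` and are
isomorphic to `F`. -/
noncomputable def fdeg {V : Type u} {X : Type v} (F : OrientedGraph X) (G : OrientedGraph V) (v : V) :
    ℕ :=
  Nat.card {H : Sub G // v ∈ H.verts ∧ H.IsoTo F}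

/-- `G` is `F`-irregular: different vertices have different `F`-degrees. -/
def Irregular {V : Type u} {X : Type v} (F : OrientedGraph X) (G : OrientedGraph V) : Prop :=
  ∀ x y, x ≠ y → fdeg F G x ≠ fdeg F G y

/-! ### The copies of a core in a graph with a homomorphism to it -/

/-- a bijective homomorphism of a finite oriented graph to itself reflects arcs -/
theorem arc_of_perm {X : Type v} [Finite X] (F : OrientedGraph X) (σ : Equiv.Perm X)
    (h : IsHom F F σ) (x y : X) (hxy : F.Arc (σ x) (σ y)) : F.Arc x y := by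
  classical
  haveI := Fintype.ofFinite X
  have key : ∀ n : ℕ, F.Arc ((σ ^ n) (σ x)) ((σ ^ n) (σ y)) := by
    intro n
    induction n with
    | zero => simpa using hxy
    | succ n ih =>
      rw [pow_succ']
      exact h _ _ ih
  have h1 : 0 < orderOf σ := orderOf_pos σ
  have h2 := key (orderOf σ - 1)
  have h3 : ∀ z : X, (σ ^ (orderOf σ - 1)) (σ z) = z := by
    intro z
    have : (σ ^ (orderOf σ - 1) * σ) z = z := by
      rw [← pow_succ, Nat.sub_add_cancel h1, pow_orderOf_eq_one]
      rfl
    exact this
  rwa [h3, h3] at h2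

/-- the sections through `v` of a graph over `F` -/
def Sec {V : Type u} {X : Type v} (F : OrientedGraph X) (G : OrientedGraph V) (π : V → X) (v : V) :
    Type (max u v) :=
  {s : X → V // (∀ x, π (s x) = x) ∧ IsHom F G s ∧ s (π v) = v}

/-- the subgraph given by a homomorphism -/
def imgSub {V : Type u} {X : Type v} (F : OrientedGraph X) (G : OrientedGraph V) (s : X → V)
    (hs : IsHom F G s) : Sub G where
  verts := Set.range s
  arcs := {e | ∃ x y, F.Arc x y ∧ (s x, s y) = e}
  arc := by
    rintro e ⟨x, y, hxy, rfl⟩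
    exact ⟨hs x y hxy, ⟨x, rfl⟩, ⟨y, rfl⟩⟩

theorem fdeg_eq {V : Type u} {X : Type v} [Finite X] (F : OrientedGraph X) (hF : F.IsCore)
    (G : OrientedGraph V) (π : V → X) (hπ : IsHom G F π) (v : V) :
    fdeg F G v = Nat.card (Sec F G π v) := by
  classical
  unfold fdeg
  symm
  refine Nat.card_eq_of_bijective (fun s : Sec F G π v =>
    (⟨imgSub F G s.1 s.2.2.1, ⟨π v, s.2.2.2⟩, ?_⟩ : {H : Sub G // v ∈ H.verts ∧ H.IsoTo F})) ⟨?_, ?_⟩
  · have hinj : Function.Injective s.1 := by
      intro x y hxy
      rw [← s.2.1 x, ← s.2.1 y, hxy]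
    refine ⟨Equiv.ofInjective s.1 hinj, fun x y => ⟨fun h => ⟨x, y, h, rfl⟩, ?_⟩⟩
    rintro ⟨x', y', h, he⟩
    have h1 : s.1 x' = s.1 x := congrArg Prod.fst he
    have h2 : s.1 y' = s.1 y := congrArg Prod.snd he
    rwa [hinj h1, hinj h2] at h
  · intro s s' hss
    have h1 : Set.range s.1 = Set.range s'.1 := congrArg (fun H => H.1.verts) hss
    refine Subtype.ext (funext fun x => ?_)
    obtain ⟨y, hy⟩ : s.1 x ∈ Set.range s'.1 := h1 ▸ ⟨x, rfl⟩
    have h2 : y = x := by
      have := congrArg π hy
      rwa [s'.2.1, s.2.1] at this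
    rw [← hy, h2]
  · rintro ⟨H, hv, e, he⟩
    have hφ : IsHom F G (fun x => (e x : V)) := fun x y hxy => (H.arc _ ((he x y).1 hxy)).1
    have hσ : IsHom F F (fun x => π (e x : V)) := fun x y hxy => hπ _ _ (hφ x y hxy)
    have hinj := hF _ hσ
    let σ : Equiv.Perm X := Equiv.ofBijective _ (Finite.injective_iff_bijective.1 hinj)
    have hσσ : ∀ x, σ x = π (e x : V) := fun x => rfl
    have hsec : ∀ x, π (e (σ.symm x) : V) = x := fun x => by
      rw [← hσσ, Equiv.apply_symm_apply]
    have hs : IsHom F G (fun x => (e (σ.symm x) : V)) := by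
      intro x y hxy
      refine hφ _ _ (arc_of_perm F σ hσ _ _ ?_)
      rwa [Equiv.apply_symm_apply, Equiv.apply_symm_apply]
    have hvv : ((e (σ.symm (π v)) : H.verts) : V) = v := by
      obtain ⟨x, hx⟩ := e.surjective ⟨v, hv⟩
      have h1 : (e x : V) = v := congrArg Subtype.val hx
      have h2 : π v = σ x := by rw [hσσ, h1]
      rw [h2, Equiv.symm_apply_apply, h1]
    refine ⟨⟨fun x => (e (σ.symm x) : V), hsec, hs, hvv⟩, Subtype.ext (Sub.ext ?_ ?_)⟩
    · show Set.range (fun x => (e (σ.symm x) : V)) = H.verts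
      ext w
      constructor
      · rintro ⟨x, rfl⟩
        exact (e (σ.symm x)).2
      · intro hw
        refine ⟨σ (e.symm ⟨w, hw⟩), ?_⟩
        show ((e (σ.symm (σ (e.symm ⟨w, hw⟩))) : H.verts) : V) = w
        rw [Equiv.symm_apply_apply, Equiv.apply_symm_apply]
    · show {p : V × V | ∃ x y, F.Arc x y ∧ ((e (σ.symm x) : V), (e (σ.symm y) : V)) = p} = H.arcs
      ext ⟨w, w'⟩
      constructor
      · rintro ⟨x, y, hxy, hp⟩
        rw [← hp]
        refine (he _ _).1 (arc_of_perm F σ hσ _ _ ?_)
        rwa [Equiv.apply_symm_apply, Equiv.apply_symm_apply]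
      · intro hw
        obtain ⟨h1, h2, h3⟩ := H.arc _ hw
        obtain ⟨x, hx⟩ := e.surjective ⟨w, h2⟩
        obtain ⟨y, hy⟩ := e.surjective ⟨w', h3⟩
        have hx' : (e x : V) = w := congrArg Subtype.val hx
        have hy' : (e y : V) = w' := congrArg Subtype.val hy
        refine ⟨σ x, σ y, hσ x y ((he x y).2 (by rw [hx', hy']; exact hw)), ?_⟩
        show (((e (σ.symm (σ x)) : H.verts) : V), ((e (σ.symm (σ y)) : H.verts) : V)) = (w, w')
        rw [Equiv.symm_apply_apply, Equiv.symm_apply_apply, hx', hy']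

end Pool.Agent.K7.H15.Irr
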