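import Mathlib

/-!
# An order of the vertices of a connected graph
-/

set_option autoImplicit false

namespace Pool.Agent.K7.H15.Irr

universe v

variable {X : Type v} [Fintype X] [DecidableEq X]

/-- the vertices in `Y` are ordered: every vertex but `c`, `r` has a parent of smaller height and of the
same type -/
structure Ord (G : SimpleGraph X) (l c r : X) (Y : Finset X) (t : X → ℕ) (par : X → X) (τ : X → Bool) :
    Prop where
  hc : c ∈ Y
  hr : r ∈ Y
  hl : l ∉ Y
  tc : t c = 0
  tr : t r = 0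
  τc : τ c = false
  τr : τ r = true
  par : ∀ x ∈ Y, x ≠ c → x ≠ r → 0 < t x ∧ par x ∈ Y ∧ G.Adj x (par x) ∧ t (par x) < t x ∧
    τ x = τ (par x)
  inj : ∀ x ∈ Y, ∀ y ∈ Y, x ≠ y → t x = t y → (x = c ∧ y = r) ∨ (x = r ∧ y = c)
  lt : ∀ x ∈ Y, t x < Y.card

theorem Ord.start {G : SimpleGraph X} {l c r : X} (hlc : l ≠ c) (hlr : l ≠ r) (hcr : c ≠ r) :
    ∃ t par τ, Ord G l c r {c, r} t par τ := by
  refine ⟨fun _ => 0, id, fun x => decide (x = r), ?_⟩
  refine ⟨by simp, by simp, by simp [hlc, hlr], rfl, rfl, by simp [hcr], by simp, ?_, ?_, ?_⟩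
  · intro x hx h1 h2
    simp only [Finset.mem_insert, Finset.mem_singleton] at hx
    rcases hx with h | h
    · exact absurd h h1
    · exact absurd h h2
  · intro x hx y hy hxy _
    simp only [Finset.mem_insert, Finset.mem_singleton] at hx hy
    rcases hx with rfl | rfl <;> rcases hy with rfl | rfl
    · exact absurd rfl hxy
    · exact Or.inl ⟨rfl, rfl⟩
    · exact Or.inr ⟨rfl, rfl⟩
    · exact absurd rfl hxy
  · intro x _
    rw [Finset.card_pair hcr]
    exact Nat.zero_lt_two

theorem Ord.step {G : SimpleGraph X} {l c r : X} {Y : Finset X} {t : X → ℕ} {par : X → X}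
    {τ : X → Bool} (h : Ord G l c r Y t par τ) {z y : X} (hz : z ∉ Y) (hzl : z ≠ l) (hy : y ∈ Y)
    (hzy : G.Adj z y) : ∃ t par τ, Ord G l c r (insert z Y) t par τ := by
  have hzc : c ≠ z := fun e => hz (e ▸ h.hc)
  have hzr : r ≠ z := fun e => hz (e ▸ h.hr)
  have hne : ∀ x ∈ Y, x ≠ z := fun x hx e => hz (e ▸ hx)
  refine ⟨Function.update t z Y.card, Function.update par z y, Function.update τ z (τ y), ?_⟩
  refine ⟨Finset.mem_insert_of_mem h.hc, Finset.mem_insert_of_mem h.hr, ?_, ?_, ?_, ?_, ?_, ?_, ?_, ?_⟩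
  · rw [Finset.mem_insert, not_or]
    exact ⟨hzl.symm, h.hl⟩
  · rw [Function.update_of_ne hzc]; exact h.tc
  · rw [Function.update_of_ne hzr]; exact h.tr
  · rw [Function.update_of_ne hzc]; exact h.τc
  · rw [Function.update_of_ne hzr]; exact h.τr
  · intro x hx h1 h2
    rcases Finset.mem_insert.1 hx with rfl | hx
    · rw [Function.update_self, Function.update_self, Function.update_self,
        Function.update_of_ne (hne y hy), Function.update_of_ne (hne y hy)]
      exact ⟨Finset.card_pos.2 ⟨c, h.hc⟩, Finset.mem_insert_of_mem hy, hzy, h.lt y hy, rfl⟩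
    · obtain ⟨k1, k2, k3, k4, k5⟩ := h.par x hx h1 h2
      rw [Function.update_of_ne (hne x hx), Function.update_of_ne (hne x hx),
        Function.update_of_ne (hne x hx), Function.update_of_ne (hne _ k2),
        Function.update_of_ne (hne _ k2)]
      exact ⟨k1, Finset.mem_insert_of_mem k2, k3, k4, k5⟩
  · intro x hx x' hx' hxx
    by_cases e1 : x = z
    · by_cases e2 : x' = z
      · exact absurd (e1.trans e2.symm) hxx
      · have h2 : x' ∈ Y := (Finset.mem_insert.1 hx').resolve_left e2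
        rw [e1, Function.update_self, Function.update_of_ne e2]
        intro e
        exact absurd (h.lt x' h2) (by omega)
    · have h1 : x ∈ Y := (Finset.mem_insert.1 hx).resolve_left e1
      by_cases e2 : x' = z
      · rw [e2, Function.update_self, Function.update_of_ne e1]
        intro e
        exact absurd (h.lt x h1) (by omega)
      · have h2 : x' ∈ Y := (Finset.mem_insert.1 hx').resolve_left e2
        rw [Function.update_of_ne e1, Function.update_of_ne e2]
        exact h.inj x h1 x' h2 hxx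
  · intro x hx
    rw [Finset.card_insert_of_notMem hz]
    rcases Finset.mem_insert.1 hx with rfl | hx
    · rw [Function.update_self]
      exact Nat.lt_succ_self _
    · rw [Function.update_of_ne (hne x hx)]
      exact (h.lt x hx).trans (Nat.lt_succ_self _)

theorem exists_cross {G : SimpleGraph X} {l : X} (hG : (G.induce ({l}ᶜ : Set X)).Connected)
    (Y : Finset X) {y0 z0 : X} (hy0 : y0 ∈ Y) (hy0l : y0 ≠ l) (hz0 : z0 ∉ Y) (hz0l : z0 ≠ l) :
    ∃ y ∈ Y, ∃ z, z ∉ Y ∧ z ≠ l ∧ G.Adj z y := by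
  obtain ⟨p⟩ := hG.preconnected ⟨y0, hy0l⟩ ⟨z0, hz0l⟩
  obtain ⟨d, _, h1, h2⟩ := p.exists_boundary_dart {x | (x : X) ∈ Y} hy0 hz0
  exact ⟨d.fst, h1, d.snd, h2, d.snd.2, d.adj.symm⟩

theorem exists_ord (G : SimpleGraph X) (hG : G.Connected) (h3 : 3 ≤ Fintype.card X) :
    ∃ l c r : X, G.Adj l c ∧ G.Adj c r ∧ l ≠ r ∧
      ∃ t par τ, Ord G l c r (Finset.univ.erase l) t par τ := by
  haveI : Nontrivial X := Fintype.one_lt_card_iff_nontrivial.1 (by omega)
  obtain ⟨l, hl⟩ := hG.exists_connected_induce_compl_singleton_of_finite_nontrivial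
  obtain ⟨c, hc⟩ : ∃ c, G.Adj l c := by
    obtain ⟨z, hz⟩ := exists_ne l
    obtain ⟨p⟩ := hG.preconnected l z
    obtain ⟨d, _, h1, h2⟩ := p.exists_boundary_dart {l} rfl hz
    have h3 : d.fst = l := h1
    exact ⟨d.snd, h3 ▸ d.adj⟩
  have hcl : c ≠ l := hc.ne'
  obtain ⟨r, hrc, hrl, hcr⟩ : ∃ r, r ≠ c ∧ r ≠ l ∧ G.Adj c r := by
    obtain ⟨z0, hz0, hz0'⟩ : ∃ z0, z0 ∉ ({c} : Finset X) ∧ z0 ≠ l := by
      by_contra hcon
      push Not at hcon
      have h4 : (Finset.univ : Finset X) ⊆ {c, l} := by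
        intro x _
        by_cases hx : x ∈ ({c} : Finset X)
        · rw [Finset.mem_singleton] at hx
          simp [hx]
        · simp [hcon x hx]
      have h5 := Finset.card_le_card h4
      rw [Finset.card_univ] at h5
      have h6 := Finset.card_le_two (a := c) (b := l)
      omega
    obtain ⟨y, hy, z, hz, hzl, hadj⟩ := exists_cross hl {c} (Finset.mem_singleton_self c) hcl hz0 hz0'
    rw [Finset.mem_singleton] at hy hz
    subst hy
    exact ⟨z, hz, hzl, hadj.symm⟩
  refine ⟨l, c, r, hc, hcr, hrl.symm, ?_⟩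
  have key : ∀ k : ℕ, k + 2 ≤ (Finset.univ.erase l).card → ∃ Y : Finset X,
      Y ⊆ Finset.univ.erase l ∧ Y.card = k + 2 ∧ ∃ t par τ, Ord G l c r Y t par τ := by
    intro k
    induction k with
    | zero =>
      intro _
      refine ⟨{c, r}, ?_, Finset.card_pair hrc.symm, Ord.start hcl.symm hrl.symm hrc.symm⟩
      intro x hx
      simp only [Finset.mem_insert, Finset.mem_singleton] at hx
      rcases hx with rfl | rfl <;> simp [hcl, hrl]
    | succ k ih =>
      intro hk
      obtain ⟨Y, hY, hYc, t, par, τ, hO⟩ := ih (by omega)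
      obtain ⟨z0, hz0, hz0'⟩ : ∃ z0 ∈ Finset.univ.erase l, z0 ∉ Y := by
        by_contra hcon
        push Not at hcon
        have := Finset.card_le_card (fun x hx => hcon x hx)
        omega
      obtain ⟨y, hy, z, hz, hzl, hadj⟩ := exists_cross hl Y hO.hc hcl hz0' (Finset.ne_of_mem_erase hz0)
      obtain ⟨t', par', τ', hO'⟩ := hO.step hz hzl hy hadj
      refine ⟨insert z Y, ?_, ?_, t', par', τ', hO'⟩
      · intro x hx
        rcases Finset.mem_insert.1 hx with rfl | hx
        · simp [hzl]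
        · exact hY hx
      · rw [Finset.card_insert_of_notMem hz, hYc]
  have hcard : (Finset.univ.erase l).card = Fintype.card X - 1 := by
    rw [Finset.card_erase_of_mem (Finset.mem_univ l), Finset.card_univ]
  obtain ⟨Y, hY, hYc, t, par, τ, hO⟩ := key ((Finset.univ.erase l).card - 2) (by omega)
  have : Y = Finset.univ.erase l := Finset.eq_of_subset_of_card_le hY (by omega)
  subst this
  exact ⟨t, par, τ, hO⟩

end Pool.Agent.K7.H15.Irr
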