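import Pool.Agent.K7.H15.Irr.Defs
import Pool.Agent.K7.H15.Irr.Order
import Pool.Agent.K7.H15.Irr.Count

/-!
# The graph over `F` and its sections
-/

set_option autoImplicit false

namespace Pool.Agent.K7.H15.Irr

open Finset

universe u v

/-- the parameters of the construction -/
structure Par (X : Type v) where
  l : X
  c : X
  r : X
  t : X → ℕ
  par : X → X
  τ : X → Bool
  m : X → ℕ
  h : ℕ
  n : ℕ

/-- the conditions on the parameters -/
structure Good {X : Type v} (F : OrientedGraph X) (P : Par X) : Prop where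
  lc : F.underlying.Adj P.l P.c
  cr : F.underlying.Adj P.c P.r
  lr : P.l ≠ P.r
  nh : P.n = 2 * P.h
  mc : P.m P.c = P.n
  mr : P.m P.r = P.n
  τc : P.τ P.c = false
  τr : P.τ P.r = true
  par : ∀ x, x ≠ P.l → x ≠ P.c → x ≠ P.r → P.par x ≠ P.l ∧ F.underlying.Adj x (P.par x) ∧
    P.t (P.par x) < P.t x ∧ P.τ x = P.τ (P.par x) ∧ P.m x ∣ P.m (P.par x)
  pos : ∀ x, x ≠ P.l → 0 < P.m x

/-- the relation between the labels of the vertices in the classes of `x` and `y` -/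
def Rel {X : Type v} (P : Par X) (x y : X) (a b : ℕ) : Prop :=
  (x = P.l → y = P.c → LC P.h P.n a b) ∧ (y = P.l → x = P.c → LC P.h P.n b a) ∧
  (x = P.c → y = P.r → P.n ≤ a + b + 1) ∧ (y = P.c → x = P.r → P.n ≤ b + a + 1) ∧
  (x ≠ P.l → x ≠ P.c → x ≠ P.r → y = P.par x → b % P.m x = a) ∧
  (y ≠ P.l → y ≠ P.c → y ≠ P.r → x = P.par y → a % P.m y = b)

/-- the graph -/
def graph {X : Type v} {V : Type u} (F : OrientedGraph X) (P : Par X) (π : V → X) (lb : V → ℕ) :
    OrientedGraph V where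
  Arc p q := F.Arc (π p) (π q) ∧ Rel P (π p) (π q) (lb p) (lb q)
  asymm := fun _ _ h h' => F.asymm _ _ h.1 h'.1

theorem graph_hom {X : Type v} {V : Type u} (F : OrientedGraph X) (P : Par X) (π : V → X)
    (lb : V → ℕ) : IsHom (graph F P π lb) F π := fun _ _ h => h.1

theorem Rel.symm {X : Type v} {P : Par X} {x y : X} {a b : ℕ} (h : Rel P x y a b) :
    Rel P y x b a := ⟨h.2.1, h.1, h.2.2.2.1, h.2.2.1, h.2.2.2.2.2, h.2.2.2.2.1⟩

theorem rel_of_adj {X : Type v} {V : Type u} {F : OrientedGraph X} {P : Par X} {π : V → X}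
    {lb : V → ℕ} {s : X → V} (hs : ∀ x, π (s x) = x) (hh : IsHom F (graph F P π lb) s) {x y : X}
    (hxy : F.underlying.Adj x y) : Rel P x y (lb (s x)) (lb (s y)) := by
  rcases hxy with h | h
  · have := (hh x y h).2
    rwa [hs, hs] at this
  · have := (hh y x h).2.symm
    rwa [hs, hs] at this

theorem hom_iff {X : Type v} {V : Type u} {F : OrientedGraph X} {P : Par X} (hP : Good F P)
    {π : V → X} {lb : V → ℕ} {s : X → V} (hs : ∀ x, π (s x) = x) :
    IsHom F (graph F P π lb) s ↔ (LC P.h P.n (lb (s P.l)) (lb (s P.c)) ∧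
      P.n ≤ lb (s P.c) + lb (s P.r) + 1 ∧
      ∀ x, x ≠ P.l → x ≠ P.c → x ≠ P.r → lb (s (P.par x)) % P.m x = lb (s x)) := by
  constructor
  · intro h
    refine ⟨(rel_of_adj hs h hP.lc).1 rfl rfl, (rel_of_adj hs h hP.cr).2.2.1 rfl rfl, ?_⟩
    intro x h1 h2 h3
    exact (rel_of_adj hs h (hP.par x h1 h2 h3).2.1).2.2.2.2.1 h1 h2 h3 rfl
  · rintro ⟨h1, h2, h3⟩ x y hxy
    refine ⟨by rwa [hs, hs], ?_⟩
    rw [hs, hs]
    refine ⟨?_, ?_, ?_, ?_, ?_, ?_⟩
    · rintro rfl rfl; exact h1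
    · rintro rfl rfl; exact h1
    · rintro rfl rfl; exact h2
    · rintro rfl rfl; exact h2
    · rintro k1 k2 k3 rfl; exact h3 x k1 k2 k3
    · rintro k1 k2 k3 rfl; exact h3 y k1 k2 k3

/-- the label of the vertex over `x` in the section given by a base configuration -/
def lab {X : Type v} [DecidableEq X] (P : Par X) (x : X) (ω : ℕ × ℕ × ℕ) : ℕ :=
  if x = P.l then ω.1 else (if P.τ x then ω.2.2 else ω.2.1) % P.m x

theorem lab_par {X : Type v} [DecidableEq X] {F : OrientedGraph X} {P : Par X} (hP : Good F P)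
    (x : X) (h1 : x ≠ P.l) (h2 : x ≠ P.c) (h3 : x ≠ P.r) (ω : ℕ × ℕ × ℕ) :
    lab P (P.par x) ω % P.m x = lab P x ω := by
  obtain ⟨k1, k2, k3, k4, k5⟩ := hP.par x h1 h2 h3
  unfold lab
  rw [if_neg k1, if_neg h1, ← k4, Nat.mod_mod_of_dvd _ k5]

theorem lab_l {X : Type v} [DecidableEq X] (P : Par X) (ω : ℕ × ℕ × ℕ) : lab P P.l ω = ω.1 := by
  unfold lab
  rw [if_pos rfl]

theorem lab_c {X : Type v} [DecidableEq X] {F : OrientedGraph X} {P : Par X} (hP : Good F P)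
    (ω : ℕ × ℕ × ℕ) (h : ω.2.1 < P.n) : lab P P.c ω = ω.2.1 := by
  unfold lab
  rw [if_neg (F.underlying.ne_of_adj hP.lc).symm, hP.τc, hP.mc]
  simp [Nat.mod_eq_of_lt h]

theorem lab_r {X : Type v} [DecidableEq X] {F : OrientedGraph X} {P : Par X} (hP : Good F P)
    (ω : ℕ × ℕ × ℕ) (h : ω.2.2 < P.n) : lab P P.r ω = ω.2.2 := by
  unfold lab
  rw [if_neg hP.lr.symm, hP.τr, hP.mr]
  simp [Nat.mod_eq_of_lt h]

/-- the size of the class of `x` -/
def size {X : Type v} [DecidableEq X] (P : Par X) (x : X) : ℕ := if x = P.l then 3 else P.m x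

theorem lab_lt {X : Type v} [DecidableEq X] {F : OrientedGraph X} {P : Par X} (hP : Good F P)
    (x : X) (ω : ℕ × ℕ × ℕ) (h : ω.1 < 3) : lab P x ω < size P x := by
  unfold lab size
  split_ifs with h1
  · exact h
  · exact Nat.mod_lt _ (hP.pos x h1)
  · exact Nat.mod_lt _ (hP.pos x h1)

theorem eq_lab {X : Type v} [DecidableEq X] {V : Type u} {F : OrientedGraph X} {P : Par X}
    (hP : Good F P) {lb : V → ℕ} {s : X → V} (hc : lb (s P.c) < P.n) (hr : lb (s P.r) < P.n)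
    (hh : ∀ x, x ≠ P.l → x ≠ P.c → x ≠ P.r → lb (s (P.par x)) % P.m x = lb (s x)) (x : X) :
    lb (s x) = lab P x (lb (s P.l), lb (s P.c), lb (s P.r)) := by
  induction hk : P.t x using Nat.strong_induction_on generalizing x with
  | _ k ih =>
    by_cases h1 : x = P.l
    · rw [h1, lab_l]
    by_cases h2 : x = P.c
    · rw [h2, lab_c hP _ hc]
    by_cases h3 : x = P.r
    · rw [h3, lab_r hP _ hr]
    obtain ⟨k1, k2, k3, k4, k5⟩ := hP.par x h1 h2 h3
    rw [← hh x h1 h2 h3, ih _ (hk ▸ k3) (P.par x) rfl, lab_par hP x h1 h2 h3]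

theorem fdeg_graph {X : Type v} [DecidableEq X] [Finite X] {V : Type u} {F : OrientedGraph X}
    (hF : F.IsCore) {P : Par X} (hP : Good F P)
    (e : V ≃ {p : X × ℕ // p.2 < size P p.1}) (v : V) :
    fdeg F (graph F P (fun w => (e w).1.1) (fun w => (e w).1.2)) v =
      ((base P.h P.n).filter (fun ω => lab P (e v).1.1 ω = (e v).1.2)).card := by
  have hlc : P.c ≠ P.l := (F.underlying.ne_of_adj hP.lc).symm
  have hltc : ∀ w : V, (e w).1.1 = P.c → (e w).1.2 < P.n := by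
    intro w hw
    have := (e w).2
    rw [hw, size, if_neg hlc, hP.mc] at this
    exact this
  have hltr : ∀ w : V, (e w).1.1 = P.r → (e w).1.2 < P.n := by
    intro w hw
    have := (e w).2
    rw [hw, size, if_neg hP.lr.symm, hP.mr] at this
    exact this
  have hltl : ∀ w : V, (e w).1.1 = P.l → (e w).1.2 < 3 := by
    intro w hw
    have := (e w).2
    rw [hw, size, if_pos rfl] at this
    exact this
  have hbase : ∀ ω : ℕ × ℕ × ℕ, ω ∈ base P.h P.n ↔ ω.1 < 3 ∧ ω.2.1 < P.n ∧ ω.2.2 < P.n ∧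
      LC P.h P.n ω.1 ω.2.1 ∧ P.n ≤ ω.2.1 + ω.2.2 + 1 := by
    intro ω
    unfold base
    rw [mem_filter, mem_product, mem_product, mem_range, mem_range, mem_range]
    tauto
  set π : V → X := fun w => (e w).1.1 with hπ
  set lb : V → ℕ := fun w => (e w).1.2 with hlb
  set S := (base P.h P.n).filter (fun ω => lab P (e v).1.1 ω = (e v).1.2) with hS
  have hcard : Nat.card {ω // ω ∈ S} = S.card := by
    rw [Nat.card_eq_fintype_card, Fintype.card_coe]
  have hmem : ∀ s : Sec F (graph F P π lb) π v, (lb (s.1 P.l), lb (s.1 P.c), lb (s.1 P.r)) ∈ S := by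
    intro s
    obtain ⟨g1, g2, g3⟩ := (hom_iff hP s.2.1).1 s.2.2.1
    rw [hS, mem_filter, hbase]
    refine ⟨⟨hltl _ (s.2.1 _), hltc _ (s.2.1 _), hltr _ (s.2.1 _), g1, g2⟩, ?_⟩
    rw [← eq_lab hP (hltc _ (s.2.1 _)) (hltr _ (s.2.1 _)) g3]
    show lb (s.1 (π v)) = lb v
    rw [s.2.2.2]
  rw [fdeg_eq F hF _ _ (graph_hom F P _ _), ← hcard]
  refine Nat.card_eq_of_bijective (fun s => (⟨_, hmem s⟩ : {ω // ω ∈ S})) ⟨?_, ?_⟩
  · intro s s' hss
    have h0 := congrArg Subtype.val hss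
    have h1 : (lb (s.1 P.l), lb (s.1 P.c), lb (s.1 P.r)) =
      (lb (s'.1 P.l), lb (s'.1 P.c), lb (s'.1 P.r)) := h0
    obtain ⟨g1, g2, g3⟩ := (hom_iff hP s.2.1).1 s.2.2.1
    obtain ⟨g1', g2', g3'⟩ := (hom_iff hP s'.2.1).1 s'.2.2.1
    refine Subtype.ext (funext fun x => ?_)
    apply e.injective
    refine Subtype.ext (Prod.ext ?_ ?_)
    · show π (s.1 x) = π (s'.1 x)
      rw [s.2.1, s'.2.1]
    · show lb (s.1 x) = lb (s'.1 x)
      rw [eq_lab hP (hltc _ (s.2.1 _)) (hltr _ (s.2.1 _)) g3,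
        eq_lab hP (hltc _ (s'.2.1 _)) (hltr _ (s'.2.1 _)) g3', h1]
  · rintro ⟨ω, hω⟩
    have hω' := hω
    rw [hS, mem_filter, hbase] at hω'
    obtain ⟨⟨k1, k2, k3, k4, k5⟩, k6⟩ := hω'
    let s : X → V := fun x => e.symm ⟨(x, lab P x ω), lab_lt hP x ω k1⟩
    have hs1 : ∀ x, π (s x) = x := by
      intro x
      simp [hπ, s]
    have hs2 : ∀ x, lb (s x) = lab P x ω := by
      intro x
      simp [hlb, s]
    refine ⟨⟨s, hs1, (hom_iff hP hs1).2 ⟨?_, ?_, ?_⟩, ?_⟩, ?_⟩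
    · rw [hs2, hs2, lab_l, lab_c hP _ k2]
      exact k4
    · rw [hs2, hs2, lab_r hP _ k3, lab_c hP _ k2]
      exact k5
    · intro x h1 h2 h3
      rw [hs2, hs2, lab_par hP x h1 h2 h3]
    · apply e.injective
      refine Subtype.ext (Prod.ext ?_ ?_)
      · show π (s (π v)) = π v
        rw [hs1]
      · show lb (s (π v)) = lb v
        rw [hs2]
        exact k6
    · refine Subtype.ext ?_
      show (lb (s P.l), lb (s P.c), lb (s P.r)) = ω
      rw [hs2, hs2, hs2, lab_l, lab_c hP _ k2, lab_r hP _ k3]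

end Pool.Agent.K7.H15.Irr
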